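import Pool.Agent.Helper9.LS.Tree

/-!
# Normal subgroups with few generators, deep in the derived series, are powerfully embedded
-/

set_option autoImplicit false

open scoped commutatorElement Pointwise

namespace Pool.Agent.Helper9.LS

/-- Order of a commutative group of exponent `n` with `D` generators. -/
theorem card_le_comm {A : Type*} [CommGroup A] [Finite A] (n D : ℕ) (hn : 0 < n) (g : Fin D → A)
    (hg : Subgroup.closure (Set.range g) = ⊤) (he : ∀ x : A, x ^ n = 1) : Nat.card A ≤ n ^ D := by
  have hs : ∀ x : A, ∃ e : Fin D → ℕ, x = ∏ i, g i ^ e i := by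
    intro x
    have hx : x ∈ Subgroup.closure (Set.range g) := by rw [hg]; trivial
    induction hx using Subgroup.closure_induction with
    | mem y hy =>
      obtain ⟨i, rfl⟩ := hy
      refine ⟨fun j => if j = i then 1 else 0, ?_⟩
      rw [Finset.prod_eq_single i]
      · simp
      · intro j _ hj; simp [hj]
      · intro h; exact absurd (Finset.mem_univ i) h
    | one => exact ⟨fun _ => 0, by simp⟩
    | mul x y _ _ hx hy =>
      obtain ⟨e, rfl⟩ := hx
      obtain ⟨f, rfl⟩ := hy
      refine ⟨fun i => e i + f i, ?_⟩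
      rw [← Finset.prod_mul_distrib]
      exact Finset.prod_congr rfl fun i _ => (pow_add _ _ _).symm
    | inv x _ hx =>
      obtain ⟨e, rfl⟩ := hx
      refine ⟨fun i => e i * (n - 1), ?_⟩
      have h1 : (∏ i, g i ^ e i)⁻¹ = (∏ i, g i ^ e i) ^ (n - 1) := by
        rw [inv_eq_iff_mul_eq_one, ← pow_succ', Nat.sub_add_cancel hn, he]
      rw [h1, ← Finset.prod_pow]
      exact Finset.prod_congr rfl fun i _ => (pow_mul _ _ _).symm
  have h2 : Function.Surjective (fun e : Fin D → Fin n => ∏ i, g i ^ (e i).val) := by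
    intro x
    obtain ⟨e, rfl⟩ := hs x
    refine ⟨fun i => ⟨e i % n, Nat.mod_lt _ hn⟩, ?_⟩
    refine Finset.prod_congr rfl fun i _ => ?_
    show g i ^ (e i % n) = g i ^ e i
    conv_rhs => rw [← Nat.div_add_mod (e i) n]
    rw [pow_add, pow_mul, he, one_pow, one_mul]
  have h3 := Nat.card_le_card_of_surjective _ h2
  simpa using h3

variable {P : Type*} [Group P]

/-- Order of a section generated by `D` elements, commutative and of exponent `n`. -/
theorem relIndex_le_of_gen [Finite P] (N K : Subgroup P) [K.Normal] (n D : ℕ) (hn : 0 < n)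
    (g : Fin D → P) (hg : N = Subgroup.closure (Set.range g)) (hc : ⁅N, N⁆ ≤ K)
    (he : ∀ x ∈ N, x ^ n ∈ K) : K.relIndex N ≤ n ^ D := by
  obtain ⟨π, hπ⟩ : ∃ π, π = QuotientGroup.mk' K := ⟨_, rfl⟩
  have hcomm : ∀ a b : N.map π, a * b = b * a := by
    rintro ⟨a, x, hx, rfl⟩ ⟨b, y, hy, rfl⟩
    apply Subtype.ext
    show π x * π y = π y * π x
    rw [hπ]
    exact mk_comm (hc (Subgroup.commutator_mem_commutator hx hy))
  let _ : CommGroup (N.map π) := { (inferInstance : Group (N.map π)) with mul_comm := hcomm }
  have hgN : ∀ i, g i ∈ N := fun i => by rw [hg]; exact Subgroup.subset_closure ⟨i, rfl⟩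
  have h1 : Nat.card (N.map π) ≤ n ^ D := by
    refine card_le_comm n D hn (fun i => ⟨π (g i), Subgroup.mem_map_of_mem π (hgN i)⟩) ?_ ?_
    · rw [eq_top_iff]
      rintro ⟨y, x, hx, rfl⟩ _
      have hx' : x ∈ Subgroup.closure (Set.range g) := hg ▸ hx
      have key : ∀ x ∈ Subgroup.closure (Set.range g), ∃ h : π x ∈ N.map π,
          (⟨π x, h⟩ : N.map π) ∈ Subgroup.closure
            (Set.range fun i => (⟨π (g i), Subgroup.mem_map_of_mem π (hgN i)⟩ : N.map π)) := by
        intro x hx
        induction hx using Subgroup.closure_induction with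
        | mem y hy =>
          obtain ⟨i, rfl⟩ := hy
          exact ⟨Subgroup.mem_map_of_mem π (hgN i), Subgroup.subset_closure ⟨i, rfl⟩⟩
        | one => exact ⟨by rw [map_one]; exact one_mem _, by
            have : (⟨π 1, by rw [map_one]; exact one_mem _⟩ : N.map π) = 1 := by
              apply Subtype.ext; simp
            rw [this]; exact one_mem _⟩
        | mul x y _ _ hx hy =>
          obtain ⟨h1, h2⟩ := hx
          obtain ⟨h3, h4⟩ := hy
          refine ⟨by rw [map_mul]; exact mul_mem h1 h3, ?_⟩
          have : (⟨π (x * y), by rw [map_mul]; exact mul_mem h1 h3⟩ : N.map π) =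
            ⟨π x, h1⟩ * ⟨π y, h3⟩ := by
              apply Subtype.ext; simp
          rw [this]; exact mul_mem h2 h4
        | inv x _ hx =>
          obtain ⟨h1, h2⟩ := hx
          refine ⟨by rw [map_inv]; exact inv_mem h1, ?_⟩
          have : (⟨π x⁻¹, by rw [map_inv]; exact inv_mem h1⟩ : N.map π) = (⟨π x, h1⟩)⁻¹ := by
              apply Subtype.ext; simp
          rw [this]; exact inv_mem h2
      obtain ⟨_, h⟩ := key x hx'
      exact h
    · rintro ⟨y, x, hx, rfl⟩
      apply Subtype.ext
      show π x ^ n = 1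
      rw [← map_pow, hπ]
      exact (QuotientGroup.eq_one_iff _).2 (he x hx)
  have h2 : K.relIndex N = Nat.card (N.map π) := by
    rw [Subgroup.relIndex, Subgroup.index]
    have hk : (π.comp N.subtype).ker = K.subgroupOf N := by
      ext x
      rw [MonoidHom.mem_ker, Subgroup.mem_subgroupOf, MonoidHom.comp_apply, hπ]
      exact QuotientGroup.eq_one_iff _
    have e1 := Nat.card_congr (QuotientGroup.quotientKerEquivRange (π.comp N.subtype)).toEquiv
    rw [MonoidHom.range_comp, Subgroup.range_subtype] at e1
    rw [← e1, hk]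
  rw [h2]
  exact h1

/-- The chain `[N, G, ..., G]`. -/
def ch (N : Subgroup P) : ℕ → Subgroup P
  | 0 => N
  | j + 1 => ⁅ch N j, (⊤ : Subgroup P)⁆

theorem ch_normal (N : Subgroup P) [hN : N.Normal] : ∀ j, (ch N j).Normal := by
  intro j
  induction j with
  | zero => exact hN
  | succ j ih => rw [ch]; infer_instance

theorem ch_anti (N : Subgroup P) [N.Normal] (j : ℕ) : ch N (j + 1) ≤ ch N j := by
  have := ch_normal N j
  rw [ch]
  exact Subgroup.commutator_le_left _ _

theorem ch_mono_le (N : Subgroup P) [N.Normal] {i j : ℕ} (h : i ≤ j) : ch N j ≤ ch N i := by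
  induction h with
  | refl => exact le_rfl
  | step _ ih => exact (ch_anti N _).trans ih

/-- The derived series moves quickly along the chain. -/
theorem ch_derived (N : Subgroup P) [N.Normal] : ∀ k j,
    ⁅ch N j, derivedSeries P k⁆ ≤ ch N (j + 2 ^ k) := by
  intro k
  induction k with
  | zero =>
    intro j
    rw [derivedSeries_zero, pow_zero]
    exact le_rfl
  | succ k ih =>
    intro j
    have hn := ch_normal N (j + 2 ^ (k + 1))
    rw [derivedSeries_succ, Subgroup.commutator_comm]
    have h1 : ⁅⁅derivedSeries P k, ch N j⁆, derivedSeries P k⁆ ≤ ch N (j + 2 ^ (k + 1)) := by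
      rw [Subgroup.commutator_comm (derivedSeries P k) (ch N j)]
      refine (Subgroup.commutator_mono (ih j) le_rfl).trans ((ih (j + 2 ^ k)).trans ?_)
      rw [show j + 2 ^ k + 2 ^ k = j + 2 ^ (k + 1) by ring]
    apply three
    · exact h1
    · rw [Subgroup.commutator_comm (ch N j) (derivedSeries P k)]
      exact h1

variable {p : ℕ} [hp : Fact p.Prime] [Finite P]

/-- A short chain. -/
theorem ch_le (hP : IsPGroup p P) (N K : Subgroup P) [N.Normal] [K.Normal] (hK : K ≤ N) (m : ℕ)
    (hm : K.relIndex N ≤ p ^ m) : ch N m ≤ K := by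
  have key : ∀ j, ch N j ≤ K ∨ p ^ j * K.relIndex (ch N j ⊔ K) ≤ K.relIndex N := by
    intro j
    induction j with
    | zero =>
      right
      rw [pow_zero, one_mul, ch, sup_eq_left.2 hK]
    | succ j ih =>
      rcases ih with ih | ih
      · exact Or.inl ((ch_anti N j).trans ih)
      · by_cases hj : ch N (j + 1) ≤ K
        · exact Or.inl hj
        · right
          have n1 := ch_normal N j
          have n2 := ch_normal N (j + 1)
          have hlt : ¬ (ch N j ⊔ K ≤ ch N (j + 1) ⊔ K) := by
            intro h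
            apply hj
            refine (ch_anti N j).trans ?_
            apply nil_arg hP
            have := (le_sup_left (a := ch N j) (b := K)).trans h
            rwa [ch] at this
          have hle : ch N (j + 1) ⊔ K ≤ ch N j ⊔ K := sup_le_sup_right (ch_anti N j) K
          have h1 := Subgroup.relIndex_mul_relIndex K (ch N (j + 1) ⊔ K) (ch N j ⊔ K)
            le_sup_right hle
          have h2 : p ≤ (ch N (j + 1) ⊔ K).relIndex (ch N j ⊔ K) := by
            obtain ⟨a, ha⟩ := (hP.to_subgroup (ch N j ⊔ K)).index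
              ((ch N (j + 1) ⊔ K).subgroupOf (ch N j ⊔ K))
            have ha' : (ch N (j + 1) ⊔ K).relIndex (ch N j ⊔ K) = p ^ a := ha
            rw [ha']
            rcases Nat.eq_zero_or_pos a with h0 | h0
            · exfalso
              rw [h0, pow_zero, Subgroup.relIndex_eq_one] at ha'
              exact hlt ha'
            · calc p = p ^ 1 := (pow_one p).symm
                _ ≤ p ^ a := Nat.pow_le_pow_right hp.out.pos h0
          calc p ^ (j + 1) * K.relIndex (ch N (j + 1) ⊔ K)
              = p ^ j * (K.relIndex (ch N (j + 1) ⊔ K) * p) := by ring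
            _ ≤ p ^ j * (K.relIndex (ch N (j + 1) ⊔ K) *
                (ch N (j + 1) ⊔ K).relIndex (ch N j ⊔ K)) :=
                Nat.mul_le_mul_left _ (Nat.mul_le_mul_left _ h2)
            _ = p ^ j * K.relIndex (ch N j ⊔ K) := by rw [h1]
            _ ≤ _ := ih
  rcases key m with h | h
  · exact h
  · have h1 : p ^ m * K.relIndex (ch N m ⊔ K) ≤ p ^ m * 1 := by rw [mul_one]; exact h.trans hm
    have h2 := Nat.le_of_mul_le_mul_left h1 (pow_pos hp.out.pos m)
    have h3 : K.relIndex (ch N m ⊔ K) ≠ 0 := Subgroup.index_ne_zero_of_finite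
    have h4 : K.relIndex (ch N m ⊔ K) = 1 := by omega
    rw [Subgroup.relIndex_eq_one] at h4
    exact le_sup_left.trans h4

/-- Normal subgroups with few generators, deep in the derived series, are powerfully embedded in
the term of the derived series. -/
theorem crit (hP : IsPGroup p P) (N : Subgroup P) [N.Normal] (k D : ℕ)
    (hN : N ≤ derivedSeries P k) (g : Fin D → P) (hg : N = Subgroup.closure (Set.range g))
    (hD : 2 * D + 1 ≤ 2 ^ k) : ⁅N, derivedSeries P k⁆ ≤ Up p (Up p N) := by
  apply nil_arg hP
  obtain ⟨K, hK⟩ : ∃ K, K = ⁅N, derivedSeries P k⁆ ⊔ Up p (Up p N) := ⟨_, rfl⟩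
  have hKn : K.Normal := by rw [hK]; infer_instance
  have hKN : K ≤ N := by
    rw [hK]
    exact sup_le (Subgroup.commutator_le_left _ _) ((Up_le p _).trans (Up_le p _))
  have h1 : K.relIndex N ≤ p ^ (2 * D) := by
    rw [pow_mul]
    refine relIndex_le_of_gen N K (p ^ 2) D (pow_pos hp.out.pos 2) g hg ?_ ?_
    · rw [hK]
      exact (Subgroup.commutator_mono le_rfl hN).trans le_sup_left
    · intro x hx
      rw [hK, pow_two, pow_mul]
      exact Subgroup.mem_sup_right (pow_mem_Up p (pow_mem_Up p hx))
  have h2 : ch N (2 * D) ≤ K := ch_le hP N K hKN (2 * D) h1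
  have h3 : ⁅N, derivedSeries P k⁆ ≤ ch N (2 * D + 1) := by
    refine (ch_derived N k 0).trans ?_
    rw [zero_add]
    exact ch_mono_le N hD
  refine h3.trans ?_
  rw [ch]
  refine (Subgroup.commutator_mono h2 le_rfl).trans ?_
  rw [hK, Subgroup.sup_eq_closure]
  apply closure_comm_le
  rintro s (hs | hs) b _
  · exact Subgroup.mem_sup_left (Subgroup.commutator_mem_commutator hs (Subgroup.mem_top b))
  · exact Subgroup.mem_sup_right (Subgroup.commutator_le_left (Up p (Up p N)) ⊤
      (Subgroup.commutator_mem_commutator hs (Subgroup.mem_top b)))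

end Pool.Agent.Helper9.LS
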