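import Mathlib

/-!
# Powerfully embedded subgroups of finite p-groups (uniform in p)
-/

set_option autoImplicit false

open scoped commutatorElement

namespace Pool.Agent.Helper9.LS

variable {Q : Type*} [Group Q]

/-- The subgroup generated by the `p`-th powers of the elements of `A`. -/
def Up (p : ℕ) (A : Subgroup Q) : Subgroup Q := Subgroup.closure {y | ∃ x ∈ A, y = x ^ p}

/-- `A` is (strongly) powerfully embedded. -/
def PE (p : ℕ) (A : Subgroup Q) : Prop := ⁅A, (⊤ : Subgroup Q)⁆ ≤ Up p (Up p A)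

theorem pow_mem_Up (p : ℕ) {A : Subgroup Q} {x : Q} (hx : x ∈ A) : x ^ p ∈ Up p A :=
  Subgroup.subset_closure ⟨x, hx, rfl⟩

theorem Up_le (p : ℕ) (A : Subgroup Q) : Up p A ≤ A := by
  unfold Up
  rw [Subgroup.closure_le]
  rintro y ⟨x, hx, rfl⟩
  exact pow_mem hx p

theorem Up_mono (p : ℕ) {A B : Subgroup Q} (h : A ≤ B) : Up p A ≤ Up p B := by
  unfold Up
  apply Subgroup.closure_mono
  rintro y ⟨x, hx, rfl⟩
  exact ⟨x, h hx, rfl⟩

instance Up_normal (p : ℕ) (A : Subgroup Q) [hA : A.Normal] : (Up p A).Normal := by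
  refine ⟨fun n hn g => ?_⟩
  unfold Up at *
  induction hn using Subgroup.closure_induction with
  | mem y hy =>
    obtain ⟨x, hx, rfl⟩ := hy
    refine Subgroup.subset_closure ⟨g * x * g⁻¹, hA.conj_mem x hx g, ?_⟩
    rw [conj_pow]
  | one => simp
  | mul x y _ _ hx hy =>
    have := mul_mem hx hy
    have e : g * x * g⁻¹ * (g * y * g⁻¹) = g * (x * y) * g⁻¹ := by group
    rwa [e] at this
  | inv x _ hx =>
    have := inv_mem hx
    have e : (g * x * g⁻¹)⁻¹ = g * x⁻¹ * g⁻¹ := by group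
    rwa [e] at this

/-- Two elements commute modulo `K`. -/
theorem mk_comm {K : Subgroup Q} [K.Normal] {x y : Q} (h : ⁅x, y⁆ ∈ K) :
    (QuotientGroup.mk' K x) * (QuotientGroup.mk' K y) =
      (QuotientGroup.mk' K y) * (QuotientGroup.mk' K x) := by
  rw [← commutatorElement_eq_one_iff_mul_comm, ← map_commutatorElement]
  exact (QuotientGroup.eq_one_iff _).2 h

theorem mk_comm_iff {K : Subgroup Q} [K.Normal] {x y : Q} : ⁅x, y⁆ ∈ K ↔
    (QuotientGroup.mk' K x) * (QuotientGroup.mk' K y) =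
      (QuotientGroup.mk' K y) * (QuotientGroup.mk' K x) := by
  rw [← commutatorElement_eq_one_iff_mul_comm, ← map_commutatorElement]
  exact (QuotientGroup.eq_one_iff _).symm

/-- A commutator with a generated subgroup. -/
theorem closure_comm_le (S : Set Q) (B K : Subgroup Q) [K.Normal]
    (h : ∀ s ∈ S, ∀ b ∈ B, ⁅s, b⁆ ∈ K) : ⁅Subgroup.closure S, B⁆ ≤ K := by
  rw [Subgroup.commutator_le]
  intro x hx b hb
  induction hx using Subgroup.closure_induction with
  | mem y hy => exact h y hy b hb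
  | one => simp
  | mul x y _ _ hx hy =>
    rw [mk_comm_iff] at hx hy ⊢
    rw [map_mul, mul_assoc, hy, ← mul_assoc, hx, mul_assoc]
  | inv x _ hx =>
    rw [mk_comm_iff] at hx ⊢
    rw [map_inv]
    exact (Commute.inv_left (show Commute _ _ from hx)).eq

/-- Three subgroups lemma modulo a normal subgroup. -/
theorem three (A B C K : Subgroup Q) [K.Normal] (h1 : ⁅⁅B, C⁆, A⁆ ≤ K) (h2 : ⁅⁅C, A⁆, B⁆ ≤ K) :
    ⁅⁅A, B⁆, C⁆ ≤ K := by
  have key : ∀ X Y Z : Subgroup Q, ⁅⁅X, Y⁆, Z⁆ ≤ K ↔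
      ⁅⁅X.map (QuotientGroup.mk' K), Y.map (QuotientGroup.mk' K)⁆, Z.map (QuotientGroup.mk' K)⁆
        = ⊥ := by
    intro X Y Z
    rw [← Subgroup.map_commutator, ← Subgroup.map_commutator, Subgroup.map_eq_bot_iff,
      QuotientGroup.ker_mk']
  rw [key] at h1 h2 ⊢
  exact Subgroup.commutator_commutator_eq_bot_of_rotate h1 h2

/-- The commutator of a `p`-th power. -/
theorem pow_comm (p : ℕ) (A B : Subgroup Q) [A.Normal] [B.Normal] :
    ⁅Up p A, B⁆ ≤ Up p ⁅A, B⁆ ⊔ ⁅⁅A, B⁆, (⊤ : Subgroup Q)⁆ := by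
  obtain ⟨K, hK⟩ : ∃ K, K = Up p ⁅A, B⁆ ⊔ ⁅⁅A, B⁆, (⊤ : Subgroup Q)⁆ := ⟨_, rfl⟩
  rw [← hK]
  have hn : K.Normal := by rw [hK]; infer_instance
  have h0 : Up p A = Subgroup.closure {y | ∃ x ∈ A, y = x ^ p} := rfl
  rw [h0]
  apply closure_comm_le
  rintro _ ⟨x, hx, rfl⟩ b hb
  have hc : ⁅x, b⁆ ∈ ⁅A, B⁆ := Subgroup.commutator_mem_commutator hx hb
  have hcp : ⁅x, b⁆ ^ p ∈ K := by
    rw [hK]
    exact Subgroup.mem_sup_left (pow_mem_Up p hc)
  have hcc : ∀ g : Q, ⁅⁅x, b⁆, g⁆ ∈ K := by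
    intro g
    rw [hK]
    exact Subgroup.mem_sup_right (Subgroup.commutator_mem_commutator hc (Subgroup.mem_top g))
  rw [mk_comm_iff, map_pow]
  obtain ⟨X, hX⟩ : ∃ X, X = QuotientGroup.mk' K x := ⟨_, rfl⟩
  obtain ⟨Y, hY⟩ : ∃ Y, Y = QuotientGroup.mk' K b := ⟨_, rfl⟩
  have hc2 : ∀ n : ℕ, X ^ n * Y = ⁅X, Y⁆ ^ n * Y * X ^ n := by
    intro n
    induction n with
    | zero => simp
    | succ n ih =>
      have h1 : X * ⁅X, Y⁆ ^ n = ⁅X, Y⁆ ^ n * X := by
        have := mk_comm (hcc x)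
        rw [map_commutatorElement, ← hX, ← hY] at this
        exact ((Commute.pow_left (show Commute ⁅X, Y⁆ X from this) n).eq).symm
      have h2 : X * Y = ⁅X, Y⁆ * Y * X := by
        rw [commutatorElement_def]; group
      rw [pow_succ' X n, mul_assoc, ih, ← mul_assoc, ← mul_assoc, h1, mul_assoc (⁅X, Y⁆ ^ n), h2,
        pow_succ ⁅X, Y⁆ n]
      simp only [mul_assoc]
  have hone : ⁅X, Y⁆ ^ p = 1 := by
    rw [hX, hY, ← map_commutatorElement, ← map_pow]
    exact (QuotientGroup.eq_one_iff _).2 hcp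
  rw [← hX, ← hY, hc2 p, hone, one_mul]

theorem pow_comm_right (p : ℕ) (A B : Subgroup Q) [A.Normal] [B.Normal] :
    ⁅A, Up p B⁆ ≤ Up p ⁅A, B⁆ ⊔ ⁅⁅A, B⁆, (⊤ : Subgroup Q)⁆ := by
  rw [Subgroup.commutator_comm A (Up p B), Subgroup.commutator_comm A B]
  exact pow_comm p B A

/-- Powers of a join with an almost central subgroup. -/
theorem Up_sup_le (p : ℕ) (X Y : Subgroup Q) [X.Normal] [Y.Normal] :
    Up p (X ⊔ Y) ≤ Up p X ⊔ Up p Y ⊔ ⁅Y, (⊤ : Subgroup Q)⁆ := by
  obtain ⟨K, hK⟩ : ∃ K, K = Up p X ⊔ Up p Y ⊔ ⁅Y, (⊤ : Subgroup Q)⁆ := ⟨_, rfl⟩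
  have hn : K.Normal := by rw [hK]; infer_instance
  rw [← hK]
  conv_lhs => unfold Up
  rw [Subgroup.closure_le]
  rintro _ ⟨z, hz, rfl⟩
  obtain ⟨x, hx, y, hy, rfl⟩ := Subgroup.mem_sup_of_normal_right.1 hz
  have h1 : ⁅y, x⁆ ∈ K := by
    rw [hK]
    exact Subgroup.mem_sup_right (Subgroup.commutator_mem_commutator hy (Subgroup.mem_top x))
  have h2 : Commute (QuotientGroup.mk' K x) (QuotientGroup.mk' K y) := (mk_comm h1).symm
  have h3 : QuotientGroup.mk' K ((x * y) ^ p) = 1 := by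
    rw [map_pow, map_mul, h2.mul_pow, ← map_pow, ← map_pow]
    have h4 : QuotientGroup.mk' K (x ^ p) = 1 := (QuotientGroup.eq_one_iff _).2 (by
      rw [hK]; exact Subgroup.mem_sup_left (Subgroup.mem_sup_left (pow_mem_Up p hx)))
    have h5 : QuotientGroup.mk' K (y ^ p) = 1 := (QuotientGroup.eq_one_iff _).2 (by
      rw [hK]; exact Subgroup.mem_sup_left (Subgroup.mem_sup_right (pow_mem_Up p hy)))
    rw [h4, h5, one_mul]
  exact (QuotientGroup.eq_one_iff _).1 h3

section Finite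

variable {p : ℕ} [hp : Fact p.Prime] [Finite Q]

/-- Nilpotency argument modulo a normal subgroup. -/
theorem nil_arg (hQ : IsPGroup p Q) (R E : Subgroup Q) [R.Normal] [E.Normal]
    (h : R ≤ ⁅R, (⊤ : Subgroup Q)⁆ ⊔ E) : R ≤ E := by
  have hnil : Group.IsNilpotent Q := hQ.isNilpotent
  have key : ∀ n, R ≤ Subgroup.lowerCentralSeries (⊤ : Subgroup Q) n ⊔ E := by
    intro n
    induction n with
    | zero =>
      rw [Subgroup.lowerCentralSeries_zero]
      exact le_top.trans le_sup_left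
    | succ n ih =>
      have h1 : ⁅R, (⊤ : Subgroup Q)⁆ ≤ Subgroup.lowerCentralSeries (⊤ : Subgroup Q) (n + 1) ⊔ E := by
        rw [Subgroup.commutator_le]
        intro r hr g _
        obtain ⟨l, hl, e, he, rfl⟩ := Subgroup.mem_sup_of_normal_right.1 (ih hr)
        have h2 : ⁅l * e, g⁆ = (l * ⁅e, g⁆ * l⁻¹) * ⁅l, g⁆ := by
          simp only [commutatorElement_def]; group
        rw [h2]
        have hN : (Subgroup.lowerCentralSeries (⊤ : Subgroup Q) (n + 1) ⊔ E).Normal := inferInstance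
        refine mul_mem (hN.conj_mem _ (Subgroup.mem_sup_right ?_) l) (Subgroup.mem_sup_left ?_)
        · exact Subgroup.commutator_le_left E ⊤ (Subgroup.commutator_mem_commutator he
            (Subgroup.mem_top g))
        · rw [Subgroup.lowerCentralSeries_succ]
          exact Subgroup.commutator_mem_commutator hl (Subgroup.mem_top g)
      exact h.trans (sup_le h1 le_sup_right)
  obtain ⟨n, hn⟩ := Subgroup.nilpotent_iff_lowerCentralSeries.1 hnil
  have := key n
  rwa [hn, bot_sup_eq] at this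

/-- Frattini argument. -/
theorem frat (hQ : IsPGroup p Q) (R E : Subgroup Q) [R.Normal] [E.Normal]
    (h : R ≤ Up p R ⊔ ⁅R, (⊤ : Subgroup Q)⁆ ⊔ E) : R ≤ E := by
  apply nil_arg hQ
  obtain ⟨K, hK⟩ : ∃ K, K = ⁅R, (⊤ : Subgroup Q)⁆ ⊔ E := ⟨_, rfl⟩
  rw [← hK]
  have hn : K.Normal := by rw [hK]; infer_instance
  have h' : R ≤ Up p R ⊔ K := by rw [hK, ← sup_assoc]; exact h
  have hcom : ∀ x ∈ R, ∀ y : Q, Commute (QuotientGroup.mk' K x) (QuotientGroup.mk' K y) := by
    intro x hx y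
    refine mk_comm ?_
    rw [hK]
    exact Subgroup.mem_sup_left (Subgroup.commutator_mem_commutator hx (Subgroup.mem_top y))
  have h1 : ∀ u ∈ Up p R, ∃ y ∈ R, QuotientGroup.mk' K u = QuotientGroup.mk' K y ^ p := by
    intro u hu
    unfold Up at hu
    induction hu using Subgroup.closure_induction with
    | mem z hz =>
      obtain ⟨x, hx, rfl⟩ := hz
      exact ⟨x, hx, map_pow _ _ _⟩
    | one => exact ⟨1, R.one_mem, by simp⟩
    | mul x y _ _ hx hy =>
      obtain ⟨a, ha, hxa⟩ := hx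
      obtain ⟨b, hb, hyb⟩ := hy
      refine ⟨a * b, mul_mem ha hb, ?_⟩
      rw [map_mul, hxa, hyb, map_mul, (hcom a ha b).mul_pow]
    | inv x _ hx =>
      obtain ⟨a, ha, hxa⟩ := hx
      refine ⟨a⁻¹, inv_mem ha, ?_⟩
      rw [map_inv, hxa, map_inv, inv_pow]
  have h2 : ∀ z ∈ R, ∃ y ∈ R, QuotientGroup.mk' K z = QuotientGroup.mk' K y ^ p := by
    intro z hz
    obtain ⟨u, hu, k, hk, rfl⟩ := Subgroup.mem_sup_of_normal_right.1 (h' hz)
    obtain ⟨y, hy, hyu⟩ := h1 u hu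
    refine ⟨y, hy, ?_⟩
    rw [map_mul, hyu, show QuotientGroup.mk' K k = 1 from (QuotientGroup.eq_one_iff _).2 hk,
      mul_one]
  have h3 : ∀ n : ℕ, ∀ z ∈ R, ∃ y ∈ R, QuotientGroup.mk' K z = QuotientGroup.mk' K y ^ (p ^ n) := by
    intro n
    induction n with
    | zero => intro z hz; exact ⟨z, hz, by simp⟩
    | succ n ih =>
      intro z hz
      obtain ⟨y, hy, hzy⟩ := ih z hz
      obtain ⟨x, hx, hyx⟩ := h2 y hy
      refine ⟨x, hx, ?_⟩
      rw [hzy, hyx, ← pow_mul, pow_succ']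
  obtain ⟨n, hn⟩ := (IsPGroup.iff_card).1 hQ
  intro z hz
  obtain ⟨y, _, hy⟩ := h3 n z hz
  rw [← map_pow, ← hn, pow_card_eq_one', map_one] at hy
  exact (QuotientGroup.eq_one_iff _).1 hy

/-- (L1) The `p`-th powers of a powerfully embedded subgroup. -/
theorem PE_Up (hQ : IsPGroup p Q) (A : Subgroup Q) [A.Normal] (hA : PE p A) : PE p (Up p A) := by
  unfold PE
  apply frat hQ
  have h1 := pow_comm p A ⊤
  have h2 := pow_comm p (Up p A) ⊤
  refine h1.trans (sup_le ?_ ?_)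
  · refine (Up_mono p hA).trans ?_
    exact le_sup_right
  · refine (Subgroup.commutator_mono hA le_rfl).trans (h2.trans ?_)
    exact le_sup_left

private theorem PE_aux (A B : Subgroup Q) [A.Normal] [B.Normal] :
    ⁅Up p (Up p A), B⁆ ≤ Up p ⁅⁅A, B⁆, (⊤ : Subgroup Q)⁆ ⊔ ⁅⁅⁅A, B⁆, (⊤ : Subgroup Q)⁆, ⊤⁆ ⊔
      Up p (Up p ⁅A, B⁆) := by
  obtain ⟨R, hR⟩ : ∃ R, R = ⁅⁅A, B⁆, (⊤ : Subgroup Q)⁆ := ⟨_, rfl⟩
  have hn : R.Normal := by rw [hR]; infer_instance
  have h1 := pow_comm p A B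
  have h2 := pow_comm p (Up p A) B
  have h3 := pow_comm p ⁅A, B⁆ ⊤
  have h4 := Up_sup_le p (Up p ⁅A, B⁆) R
  rw [← hR] at h1 h3 ⊢
  refine h2.trans (sup_le ?_ ?_)
  · refine (Up_mono p h1).trans (h4.trans ?_)
    refine sup_le (sup_le ?_ ?_) ?_
    · exact le_sup_right
    · exact le_sup_left.trans le_sup_left
    · exact le_sup_right.trans le_sup_left
  · have h5 : ⁅Up p ⁅A, B⁆ ⊔ R, (⊤ : Subgroup Q)⁆ ≤ Up p R ⊔ ⁅R, (⊤ : Subgroup Q)⁆ := by
      have hN : (Up p R ⊔ ⁅R, (⊤ : Subgroup Q)⁆).Normal := inferInstance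
      rw [Subgroup.sup_eq_closure]
      apply closure_comm_le
      rintro s (hs | hs) b hb
      · exact h3 (Subgroup.commutator_mem_commutator hs hb)
      · exact Subgroup.mem_sup_right (Subgroup.commutator_mem_commutator hs hb)
    exact (Subgroup.commutator_mono h1 le_rfl).trans (h5.trans le_sup_left)

/-- (L2) The commutator of two powerfully embedded subgroups is powerfully embedded. -/
theorem PE_comm (hQ : IsPGroup p Q) (A B : Subgroup Q) [A.Normal] [B.Normal] (hA : PE p A)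
    (hB : PE p B) : PE p ⁅A, B⁆ := by
  unfold PE at *
  apply frat hQ
  apply three
  · refine (Subgroup.commutator_mono hB le_rfl).trans ?_
    have := PE_aux (p := p) B A
    rwa [Subgroup.commutator_comm B A] at this
  · rw [Subgroup.commutator_comm ⊤ A]
    exact (Subgroup.commutator_mono hA le_rfl).trans (PE_aux A B)

/-- (L2) -/
theorem comm_Up_le (hQ : IsPGroup p Q) (A B : Subgroup Q) [A.Normal] [B.Normal] (hA : PE p A)
    (hB : PE p B) : ⁅Up p A, B⁆ ≤ Up p ⁅A, B⁆ := by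
  refine (pow_comm p A B).trans (sup_le le_rfl ?_)
  exact (PE_comm hQ A B hA hB).trans (Up_le p _)

theorem comm_Up_le_right (hQ : IsPGroup p Q) (A B : Subgroup Q) [A.Normal] [B.Normal] (hA : PE p A)
    (hB : PE p B) : ⁅A, Up p B⁆ ≤ Up p ⁅A, B⁆ := by
  rw [Subgroup.commutator_comm A (Up p B), Subgroup.commutator_comm A B]
  exact comm_Up_le hQ B A hB hA

/-- Burnside basis theorem. -/
theorem burnside_top (hQ : IsPGroup p Q) (D : Subgroup Q)
    (h : (⊤ : Subgroup Q) ≤ D ⊔ Up p ⊤ ⊔ ⁅(⊤ : Subgroup Q), ⊤⁆) : D = ⊤ := by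
  by_contra hD
  obtain ⟨M, hM, hDM⟩ := (eq_top_or_exists_le_coatom D).resolve_left hD
  have hnil : Group.IsNilpotent Q := hQ.isNilpotent
  have hMn : M.Normal := Subgroup.NormalizerCondition.normal_of_coatom M
    (Group.normalizerCondition_of_isNilpotent) hM
  have hpow : ∀ x : Q, x ^ p ∈ M := by
    intro x
    by_contra hx
    have h1 : M ⊔ Subgroup.zpowers (x ^ p) = ⊤ := by
      apply hM.2
      refine lt_of_le_of_ne le_sup_left ?_
      intro he
      apply hx
      rw [he]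
      exact Subgroup.mem_sup_right (Subgroup.mem_zpowers _)
    have h2 : x ∈ M ⊔ Subgroup.zpowers (x ^ p) := by rw [h1]; trivial
    obtain ⟨m, hm, z, hz, hmz⟩ := Subgroup.mem_sup_of_normal_left.1 h2
    obtain ⟨k, rfl⟩ := Subgroup.mem_zpowers_iff.1 hz
    have h3 : QuotientGroup.mk' M x = QuotientGroup.mk' M x ^ ((p : ℤ) * k) := by
      conv_lhs => rw [← hmz]
      rw [map_mul, show QuotientGroup.mk' M m = 1 from (QuotientGroup.eq_one_iff _).2 hm, one_mul,
        map_zpow, map_pow, zpow_mul, zpow_natCast]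
    have h4 : ∀ n : ℕ, QuotientGroup.mk' M x = QuotientGroup.mk' M x ^ (((p : ℤ) * k) ^ n) := by
      intro n
      induction n with
      | zero => simp
      | succ n ih =>
        conv_lhs => rw [ih]
        conv_lhs => rw [h3]
        rw [← zpow_mul, pow_succ']
    obtain ⟨n, hn⟩ := (IsPGroup.iff_card).1 hQ
    have h5 := h4 n
    rw [mul_pow, zpow_mul, ← map_zpow] at h5
    have h6 : x ^ ((p : ℤ) ^ n) = 1 := by
      rw [← Nat.cast_pow, zpow_natCast, ← hn, pow_card_eq_one']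
    rw [h6, map_one, one_zpow] at h5
    apply hx
    exact pow_mem ((QuotientGroup.eq_one_iff _).1 h5) p
  have hcomm : ⁅(⊤ : Subgroup Q), ⊤⁆ ≤ M := by
    rw [Subgroup.commutator_le]
    intro x _ y _
    by_cases hx : x ∈ M
    · have : ⁅x, y⁆ = x * (y * x⁻¹ * y⁻¹) := by rw [commutatorElement_def]; group
      rw [this]
      exact mul_mem hx (hMn.conj_mem _ (inv_mem hx) y)
    · have h1 : M ⊔ Subgroup.zpowers x = ⊤ := by
        apply hM.2
        refine lt_of_le_of_ne le_sup_left ?_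
        intro he
        apply hx
        rw [he]
        exact Subgroup.mem_sup_right (Subgroup.mem_zpowers _)
      have h2 : y ∈ M ⊔ Subgroup.zpowers x := by rw [h1]; trivial
      obtain ⟨m, hm, z, hz, rfl⟩ := Subgroup.mem_sup_of_normal_left.1 h2
      obtain ⟨k, rfl⟩ := Subgroup.mem_zpowers_iff.1 hz
      rw [mk_comm_iff, map_mul, show QuotientGroup.mk' M m = 1 from (QuotientGroup.eq_one_iff _).2 hm,
        one_mul, map_zpow]
      exact (Commute.self_zpow _ _).eq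
  apply hM.1
  rw [eq_top_iff]
  refine h.trans (sup_le (sup_le hDM ?_) hcomm)
  unfold Up
  rw [Subgroup.closure_le]
  rintro _ ⟨x, _, rfl⟩
  exact hpow x

/-- Burnside basis theorem in a subgroup. -/
theorem burnside (hQ : IsPGroup p Q) (C D : Subgroup Q) (hD : D ≤ C)
    (h : C ≤ D ⊔ Up p C ⊔ ⁅C, C⁆) : D = C := by
  have h1 : D.subgroupOf C = ⊤ := by
    apply burnside_top (hQ.to_subgroup C)
    rw [← Subgroup.map_le_map_iff_of_injective C.subtype_injective]
    rw [Subgroup.map_sup, Subgroup.map_sup, Subgroup.map_commutator]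
    have e1 : (⊤ : Subgroup C).map C.subtype = C := by
      rw [← MonoidHom.range_eq_map, Subgroup.range_subtype]
    have e2 : (D.subgroupOf C).map C.subtype = D := by
      rw [Subgroup.subgroupOf_map_subtype]
      exact inf_eq_left.2 hD
    have e3 : (Up p (⊤ : Subgroup C)).map C.subtype = Up p C := by
      unfold Up
      rw [MonoidHom.map_closure]
      congr 1
      ext y
      constructor
      · rintro ⟨z, ⟨x, _, rfl⟩, rfl⟩
        exact ⟨x, x.2, by simp⟩
      · rintro ⟨x, hx, rfl⟩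
        exact ⟨(⟨x, hx⟩ : C) ^ p, ⟨⟨x, hx⟩, trivial, rfl⟩, by simp⟩
    rw [e1, e2, e3]
    exact h
  rw [Subgroup.subgroupOf_eq_top] at h1
  exact le_antisymm hD h1

/-- (L3) Generators of the commutator. -/
theorem comm_gen (hQ : IsPGroup p Q) (S T : Set Q) [(Subgroup.closure S).Normal]
    [(Subgroup.closure T).Normal] (hA : PE p (Subgroup.closure S)) (hB : PE p (Subgroup.closure T)) :
    ⁅Subgroup.closure S, Subgroup.closure T⁆ =
      Subgroup.closure {y | ∃ s ∈ S, ∃ t ∈ T, y = ⁅s, t⁆} := by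
  symm
  obtain ⟨C, hC⟩ : ∃ C, C = ⁅Subgroup.closure S, Subgroup.closure T⁆ := ⟨_, rfl⟩
  obtain ⟨D, hD⟩ : ∃ D, D = Subgroup.closure {y | ∃ s ∈ S, ∃ t ∈ T, y = ⁅s, t⁆} := ⟨_, rfl⟩
  have hPE : ⁅C, (⊤ : Subgroup Q)⁆ ≤ Up p (Up p C) := by
    rw [hC]; exact PE_comm hQ _ _ hA hB
  have hCn : C.Normal := by rw [hC]; infer_instance
  rw [← hC, ← hD]
  have hDC : D ≤ C := by
    rw [hD, hC, Subgroup.closure_le]
    rintro _ ⟨s, hs, t, ht, rfl⟩
    exact Subgroup.commutator_mem_commutator (Subgroup.subset_closure hs)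
      (Subgroup.subset_closure ht)
  apply burnside hQ C D hDC
  have hKn : (D ⊔ ⁅C, (⊤ : Subgroup Q)⁆).Normal := by
    refine ⟨fun n hn g => ?_⟩
    have hnC : n ∈ C := (sup_le hDC (Subgroup.commutator_le_left C ⊤)) hn
    have e : g * n * g⁻¹ = n * ⁅n⁻¹, g⁆ := by rw [commutatorElement_def]; group
    rw [e]
    exact mul_mem hn (Subgroup.mem_sup_right (Subgroup.commutator_mem_commutator (inv_mem hnC)
      (Subgroup.mem_top g)))
  have h1 : C ≤ D ⊔ ⁅C, (⊤ : Subgroup Q)⁆ := by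
    rw [hC]
    rw [← hC]
    have : ⁅Subgroup.closure S, Subgroup.closure T⁆ ≤ D ⊔ ⁅C, (⊤ : Subgroup Q)⁆ := by
      apply closure_comm_le
      intro s hs b hb
      have h2 : ⁅Subgroup.closure T, Subgroup.zpowers s⁆ ≤ D ⊔ ⁅C, (⊤ : Subgroup Q)⁆ := by
        apply closure_comm_le
        intro t ht z hz
        rw [Subgroup.mem_zpowers_iff] at hz
        obtain ⟨k, rfl⟩ := hz
        have h3 : ⁅t, s⁆ ∈ D ⊔ ⁅C, (⊤ : Subgroup Q)⁆ := by
          rw [← commutatorElement_inv]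
          refine inv_mem (Subgroup.mem_sup_left ?_)
          rw [hD]
          exact Subgroup.subset_closure ⟨s, hs, t, ht, rfl⟩
        rw [mk_comm_iff] at h3 ⊢
        rw [map_zpow]
        exact (Commute.zpow_right (show Commute _ _ from h3) k).eq
      rw [← commutatorElement_inv]
      exact inv_mem (h2 (Subgroup.commutator_mem_commutator hb (Subgroup.mem_zpowers s)))
    rw [hC] at this ⊢
    exact this
  refine h1.trans (sup_le (le_sup_left.trans le_sup_left) ?_)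
  refine hPE.trans ?_
  exact (Up_mono p (Up_le p C)).trans (le_sup_right.trans le_sup_left)

/-- (L3) Generators of the subgroup of `p`-th powers. -/
theorem Up_gen (hQ : IsPGroup p Q) (S : Set Q) [(Subgroup.closure S).Normal]
    (hA : PE p (Subgroup.closure S)) :
    Up p (Subgroup.closure S) = Subgroup.closure {y | ∃ s ∈ S, y = s ^ p} := by
  symm
  obtain ⟨A, hA'⟩ : ∃ A, A = Subgroup.closure S := ⟨_, rfl⟩
  obtain ⟨D, hD⟩ : ∃ D, D = Subgroup.closure {y | ∃ s ∈ S, y = s ^ p} := ⟨_, rfl⟩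
  have hAn : A.Normal := by rw [hA']; infer_instance
  rw [← hA', ← hD]
  rw [← hA'] at hA
  have hDA : D ≤ Up p A := by
    rw [hD, Subgroup.closure_le]
    rintro _ ⟨s, hs, rfl⟩
    apply pow_mem_Up
    rw [hA']
    exact Subgroup.subset_closure hs
  apply burnside hQ _ D hDA
  obtain ⟨K, hK⟩ : ∃ K, K = Up p (Up p A) := ⟨_, rfl⟩
  have hKn : K.Normal := by rw [hK]; infer_instance
  have hcom : ∀ x ∈ A, ∀ y : Q, Commute (QuotientGroup.mk' K x) (QuotientGroup.mk' K y) := by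
    intro x hx y
    refine mk_comm ?_
    rw [hK]
    exact hA (Subgroup.commutator_mem_commutator hx (Subgroup.mem_top y))
  have h1 : ∀ x ∈ A, x ^ p ∈ D ⊔ K := by
    intro x hx
    rw [hA'] at hx
    induction hx using Subgroup.closure_induction with
    | mem z hz =>
      refine Subgroup.mem_sup_left ?_
      rw [hD]
      exact Subgroup.subset_closure ⟨z, hz, rfl⟩
    | one => simp
    | mul x y hx hy ihx ihy =>
      rw [← hA'] at hx hy
      have h2 : QuotientGroup.mk' K ((x * y) ^ p) = QuotientGroup.mk' K (x ^ p * y ^ p) := by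
        rw [map_pow, map_mul, (hcom x hx y).mul_pow, map_mul, map_pow, map_pow]
      have h3 : (x ^ p * y ^ p)⁻¹ * (x * y) ^ p ∈ K := by
        rw [← QuotientGroup.eq_one_iff]
        have : QuotientGroup.mk' K ((x ^ p * y ^ p)⁻¹ * (x * y) ^ p) = 1 := by
          rw [map_mul, h2, map_inv, inv_mul_cancel]
        exact this
      have h4 := mul_mem (mul_mem ihx ihy) (Subgroup.mem_sup_right (S := D) h3)
      rwa [mul_inv_cancel_left] at h4
    | inv x _ ihx =>
      rw [inv_pow]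
      exact inv_mem ihx
  have h2 : Up p A ≤ D ⊔ K := by
    conv_lhs => unfold Up
    rw [Subgroup.closure_le]
    rintro _ ⟨x, hx, rfl⟩
    exact h1 x hx
  refine h2.trans (sup_le (le_sup_left.trans le_sup_left) ?_)
  rw [hK]
  exact le_sup_right.trans le_sup_left

end Finite

end Pool.Agent.Helper9.LS
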