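import Pool.Agent.Helper9.LS.PE

/-!
# The balanced commutator tree in a powerful finite p-group
-/

set_option autoImplicit false

open scoped commutatorElement Pointwise

namespace Pool.Agent.Helper9.LS

section Count

variable {Q : Type*} [Group Q]

/-- Ordered products. -/
private def pr (z : ℕ → Q) (ε : ℕ → Bool) : ℕ → ℕ → Q
  | _, 0 => 1
  | i, m + 1 => (if ε i then z i else 1) * pr z ε (i + 1) m

private theorem pr_mem_pow (z : ℕ → Q) (ε : ℕ → Bool) (T : Set Q) (N : ℕ)
    (hz : ∀ n < N, z n ∈ T) : ∀ m i, i + m ≤ N → pr z ε i m ∈ (insert 1 T) ^ m := by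
  intro m
  induction m with
  | zero => intro i _; simp [pr]
  | succ m ih =>
    intro i hi
    rw [pr, pow_succ']
    refine Set.mul_mem_mul ?_ (ih (i + 1) (by omega))
    split
    · exact Set.mem_insert_of_mem _ (hz i (by omega))
    · exact Set.mem_insert _ _

private theorem pr_mem (K : ℕ → Subgroup Q) (z : ℕ → Q) (ε : ℕ → Bool) (N : ℕ)
    (hz : ∀ n < N, z n ∈ K n) (hK : ∀ n < N, K (n + 1) ≤ K n) :
    ∀ m i, i + m ≤ N → pr z ε i m ∈ K i := by
  intro m
  induction m with
  | zero => intro i _; simp [pr, one_mem]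
  | succ m ih =>
    intro i hi
    rw [pr]
    refine mul_mem ?_ (hK i (by omega) (ih (i + 1) (by omega)))
    split
    · exact hz i (by omega)
    · exact one_mem _

private theorem pr_inj (K : ℕ → Subgroup Q) (z : ℕ → Q) (ε ε' : ℕ → Bool) (N : ℕ)
    (hz : ∀ n < N, z n ∈ K n) (hz' : ∀ n < N, z n ∉ K (n + 1)) (hK : ∀ n < N, K (n + 1) ≤ K n) :
    ∀ m i, i + m ≤ N → pr z ε i m = pr z ε' i m → ∀ k < m, ε (i + k) = ε' (i + k) := by
  intro m
  induction m with
  | zero => intro i _ _ k hk; omega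
  | succ m ih =>
    intro i hi h k hk
    rw [pr, pr] at h
    have h1 := pr_mem K z ε N hz hK m (i + 1) (by omega)
    have h2 := pr_mem K z ε' N hz hK m (i + 1) (by omega)
    have h3 : ε i = ε' i := by
      cases he : ε i <;> cases he' : ε' i
      · rfl
      · exfalso
        rw [he, he'] at h
        simp only [if_true, Bool.false_eq_true, if_false, one_mul] at h
        apply hz' i (by omega)
        have := mul_mem h1 (inv_mem h2)
        rwa [h, mul_inv_cancel_right] at this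
      · exfalso
        rw [he, he'] at h
        simp only [if_true, Bool.false_eq_true, if_false, one_mul] at h
        apply hz' i (by omega)
        have := mul_mem h2 (inv_mem h1)
        rwa [← h, mul_inv_cancel_right] at this
      · rfl
    rw [h3] at h
    have h4 := ih (i + 1) (by omega) (mul_left_cancel h)
    rcases Nat.eq_zero_or_pos k with h0 | h0
    · rw [h0, add_zero]; exact h3
    · have := h4 (k - 1) (by omega)
      have e : i + 1 + (k - 1) = i + k := by omega
      rwa [e] at this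

/-- Counting ordered products along a strictly decreasing chain of subgroups. -/
theorem count_chain (K : ℕ → Subgroup Q) (z : ℕ → Q) (T : Set Q) (N : ℕ)
    (hT : ((insert 1 T) ^ N : Set Q).Finite) (hzT : ∀ n < N, z n ∈ T) (hz : ∀ n < N, z n ∈ K n)
    (hz' : ∀ n < N, z n ∉ K (n + 1)) (hK : ∀ n < N, K (n + 1) ≤ K n) :
    2 ^ N ≤ Set.ncard ((insert 1 T) ^ N : Set Q) := by
  have h1 : (Set.univ : Set (Fin N → Bool)).ncard = 2 ^ N := by
    rw [Set.ncard_univ]; simp
  rw [← h1]
  obtain ⟨ex, hex⟩ : ∃ ex : (Fin N → Bool) → ℕ → Bool, ∀ ε, ∀ n (h : n < N), ex ε n = ε ⟨n, h⟩ :=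
    ⟨fun ε n => if h : n < N then ε ⟨n, h⟩ else false, fun ε n h => by simp [h]⟩
  refine Set.ncard_le_ncard_of_injOn (fun ε => pr z (ex ε) 0 N) ?_ ?_ hT
  · intro ε _
    exact pr_mem_pow z _ T N hzT N 0 (by omega)
  · intro ε _ ε' _ h
    have h2 := pr_inj K z (ex ε) (ex ε') N hz hz' hK N 0 (by omega) h
    funext n
    have h3 := h2 n n.2
    rw [zero_add, hex ε n n.2, hex ε' n n.2] at h3
    exact h3

end Count

section Tree

variable {Q : Type*} [Group Q]

/-- Balanced commutators of depth `j` with entries in `T`. -/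
def Tr (T : Set Q) : ℕ → Set Q
  | 0 => T
  | j + 1 => {y | ∃ a ∈ Tr T j, ∃ b ∈ Tr T j, y = ⁅a, b⁆}

/-- The chain of subgroups. -/
private def K (Q : Type*) [Group Q] (p : ℕ) : ℕ → ℕ → Subgroup Q
  | 0, n => if n = 0 then ⊤ else Up p ⊤
  | j + 1, n => ⁅K Q p j n, K Q p j (n - 2 ^ j)⁆

/-- Generators of the chain of subgroups. -/
private def Gn (p : ℕ) (S : Set Q) : ℕ → ℕ → Set Q
  | 0, n => if n = 0 then S else {y | ∃ s ∈ S, y = s ^ p}
  | j + 1, n => {y | ∃ a ∈ Gn p S j n, ∃ b ∈ Gn p S j (n - 2 ^ j), y = ⁅a, b⁆}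

private theorem K_normal (p : ℕ) : ∀ j n, (K Q p j n).Normal := by
  intro j
  induction j with
  | zero =>
    intro n
    rw [K]
    split
    · infer_instance
    · infer_instance
  | succ j ih =>
    intro n
    have h1 := ih n
    have h2 := ih (n - 2 ^ j)
    rw [K]
    infer_instance

private theorem K_const (p : ℕ) : ∀ j n, 2 ^ j ≤ n → K Q p j n = K Q p j (2 ^ j) := by
  intro j
  induction j with
  | zero =>
    intro n hn
    rw [K, K]
    have h1 : n ≠ 0 := by omega
    simp [h1]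
  | succ j ih =>
    intro n hn
    have h2 : 2 ^ (j + 1) = 2 ^ j + 2 ^ j := by ring
    have h3 : 0 < 2 ^ j := by positivity
    rw [K, K, ih n (by omega), ih (n - 2 ^ j) (by omega), ih (2 ^ (j + 1)) (by omega),
      ih (2 ^ (j + 1) - 2 ^ j) (by omega)]

private theorem Gn_sub (p : ℕ) (S : Set Q) : ∀ j n, Gn p S j n ⊆ Tr (S ∪ {y | ∃ s ∈ S, y = s ^ p}) j := by
  intro j
  induction j with
  | zero =>
    intro n
    rw [Gn, Tr]
    split
    · exact Set.subset_union_left
    · exact Set.subset_union_right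
  | succ j ih =>
    intro n
    rw [Gn, Tr]
    rintro _ ⟨a, ha, b, hb, rfl⟩
    exact ⟨a, ih _ ha, b, ih _ hb, rfl⟩

private theorem K_low (p : ℕ) (hPE : ⁅(⊤ : Subgroup Q), (⊤ : Subgroup Q)⁆ ≤ Up p (Up p (⊤ : Subgroup Q))) :
    ∀ j, derivedSeries Q (j + 1) ≤ K Q p j (2 ^ j) := by
  intro j
  induction j with
  | zero =>
    rw [derivedSeries_succ, derivedSeries_zero, K]
    simp only [pow_zero, one_ne_zero, if_false]
    exact hPE.trans (Up_le p _)
  | succ j ih =>
    have h2 : 2 ^ (j + 1) = 2 ^ j + 2 ^ j := by ring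
    have h3 : 0 < 2 ^ j := by positivity
    rw [derivedSeries_succ, K, K_const p j (2 ^ (j + 1)) (by omega),
      show 2 ^ (j + 1) - 2 ^ j = 2 ^ j by omega]
    exact Subgroup.commutator_mono ih ih

variable {p : ℕ} [hp : Fact p.Prime] [Finite Q]

private theorem K_PE (hQ : IsPGroup p Q) (hPE : ⁅(⊤ : Subgroup Q), (⊤ : Subgroup Q)⁆ ≤ Up p (Up p (⊤ : Subgroup Q))) :
    ∀ j n, PE p (K Q p j n) := by
  intro j
  induction j with
  | zero =>
    intro n
    rw [K]
    split
    · exact hPE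
    · exact PE_Up hQ ⊤ hPE
  | succ j ih =>
    intro n
    have h1 := K_normal (Q := Q) p j n
    have h2 := K_normal (Q := Q) p j (n - 2 ^ j)
    rw [K]
    exact PE_comm hQ _ _ (ih n) (ih _)

private theorem K_chain (hQ : IsPGroup p Q) (hPE : ⁅(⊤ : Subgroup Q), (⊤ : Subgroup Q)⁆ ≤ Up p (Up p (⊤ : Subgroup Q))) :
    ∀ j n, n < 2 ^ j → K Q p j (n + 1) ≤ Up p (K Q p j n) := by
  intro j
  induction j with
  | zero =>
    intro n hn
    have h0 : n = 0 := by omega
    subst h0
    rw [K, K]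
    simp
  | succ j ih =>
    intro n hn
    have h2 : 2 ^ (j + 1) = 2 ^ j + 2 ^ j := by ring
    have n1 := K_normal (Q := Q) p j n
    have n2 := K_normal (Q := Q) p j (n - 2 ^ j)
    rw [K, K]
    rcases lt_or_ge n (2 ^ j) with h | h
    · rw [show n + 1 - 2 ^ j = 0 by omega, show n - 2 ^ j = 0 by omega]
      rw [show n - 2 ^ j = 0 by omega] at n2
      exact (Subgroup.commutator_mono (ih n h) le_rfl).trans
        (comm_Up_le hQ _ _ (K_PE hQ hPE j n) (K_PE hQ hPE j 0))
    · rw [K_const p j (n + 1) (by omega), ← K_const p j n h, show n + 1 - 2 ^ j = (n - 2 ^ j) + 1 by omega]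
      exact (Subgroup.commutator_mono le_rfl (ih (n - 2 ^ j) (by omega))).trans
        (comm_Up_le_right hQ _ _ (K_PE hQ hPE j n) (K_PE hQ hPE j _))

private theorem K_gen (hQ : IsPGroup p Q) (hPE : ⁅(⊤ : Subgroup Q), (⊤ : Subgroup Q)⁆ ≤ Up p (Up p (⊤ : Subgroup Q)))
    (S : Set Q) (hS : Subgroup.closure S = ⊤) :
    ∀ j n, K Q p j n = Subgroup.closure (Gn p S j n) := by
  intro j
  induction j with
  | zero =>
    intro n
    rw [K, Gn]
    split
    · exact hS.symm
    · have h1 : (Subgroup.closure S).Normal := by rw [hS]; infer_instance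
      have h2 : PE p (Subgroup.closure S) := by rw [hS]; exact hPE
      rw [← Up_gen hQ S h2, hS]
  | succ j ih =>
    intro n
    have n1 := K_normal (Q := Q) p j n
    have n2 := K_normal (Q := Q) p j (n - 2 ^ j)
    have p1 := K_PE hQ hPE j n
    have p2 := K_PE hQ hPE j (n - 2 ^ j)
    rw [ih] at n1 n2 p1 p2
    rw [K, Gn, ih n, ih (n - 2 ^ j)]
    exact comm_gen hQ _ _ p1 p2

/-- The balanced commutator tree gives many distinct products. -/
theorem tree_count (hQ : IsPGroup p Q) (S : Set Q) (hS : Subgroup.closure S = ⊤)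
    (hPE : ⁅(⊤ : Subgroup Q), (⊤ : Subgroup Q)⁆ ≤ Up p (Up p (⊤ : Subgroup Q))) (j : ℕ) (hj : derivedSeries Q (j + 1) ≠ ⊥) :
    2 ^ (2 ^ j) ≤ Set.ncard ((insert 1 (Tr (S ∪ {y | ∃ s ∈ S, y = s ^ p}) j)) ^ (2 ^ j) : Set Q) := by
  have hanti : ∀ n < 2 ^ j, K Q p j (n + 1) ≤ K Q p j n := fun n hn =>
    (K_chain hQ hPE j n hn).trans (Up_le p _)
  have hne : ∀ n ≤ 2 ^ j, K Q p j n ≠ ⊥ := by
    intro n hn h
    have h1 : ∀ d, ∀ n, n + d = 2 ^ j → K Q p j (2 ^ j) ≤ K Q p j n := by
      intro d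
      induction d with
      | zero => intro n hn; rw [← hn, add_zero]
      | succ d ih => intro n hn; exact (ih (n + 1) (by omega)).trans (hanti n (by omega))
    have h2 := h1 (2 ^ j - n) n (by omega)
    rw [h, le_bot_iff] at h2
    have h3 := K_low p hPE j
    rw [h2, le_bot_iff] at h3
    exact hj h3
  have hex : ∀ n, n < 2 ^ j → ∃ z ∈ Gn p S j n, z ∉ K Q p j (n + 1) := by
    intro n hn
    by_contra hcon
    push Not at hcon
    have h1 : K Q p j n ≤ K Q p j (n + 1) := by
      rw [K_gen hQ hPE S hS j n, Subgroup.closure_le]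
      exact hcon
    have n1 := K_normal (Q := Q) p j n
    apply hne n hn.le
    rw [← le_bot_iff]
    apply frat hQ
    exact (h1.trans (K_chain hQ hPE j n hn)).trans (le_sup_left.trans le_sup_left)
  obtain ⟨z, hz⟩ : ∃ z : ℕ → Q, ∀ n < 2 ^ j, z n ∈ Gn p S j n ∧ z n ∉ K Q p j (n + 1) := by
    refine ⟨fun n => if h : n < 2 ^ j then (hex n h).choose else 1, fun n hn => ?_⟩
    simp only [hn, dif_pos]
    exact (hex n hn).choose_spec
  refine count_chain (fun n => K Q p j n) z _ (2 ^ j) (Set.toFinite _) ?_ ?_ ?_ hanti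
  · intro n hn; exact Gn_sub p S j n (hz n hn).1
  · intro n hn
    show z n ∈ K Q p j n
    rw [K_gen hQ hPE S hS j n]
    exact Subgroup.subset_closure (hz n hn).1
  · intro n hn; exact (hz n hn).2

end Tree

end Pool.Agent.Helper9.LS
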